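import Pool.Agent.H664.EX.Stm
import Pool.Graph.R_pool_sql_team_seeded_3997aac3.Q177.EG.Log

/-! Project EX (helper664), job SLICE: existence of the slices. -/

set_option autoImplicit false

namespace Pool.Agent.H388.EX

open MvPolynomial Filter Topology Metric Pool.Agent.W996.EC Pool.Agent.Q72.EG Pool.Agent.H664.EX

lemma pt_comp {E : Type} [Field E] [Algebra ℂ E] {σ σ' : Type} {ξ : σ → E} {p : σ → ℂ}
    (hp : p ∈ Pt ξ) (e : σ' → σ) : p ∘ e ∈ Pt (ξ ∘ e) := by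
  intro g hg
  have h := hp (rename e g) (by rw [aeval_rename]; exact hg)
  rwa [eval_rename] at h

lemma pt_zero {E : Type} [Field E] [Algebra ℂ E] {σ : Type} {ξ : σ → E} {p : σ → ℂ}
    (hp : p ∈ Pt ξ) {s : σ} (hs : ξ s = 0) : p s = 0 := by
  have := hp (X s) (by rw [aeval_X, hs])
  simpa using this

/-- the coordinates -/
def e3 : Fin 3 ≃ Option (Fin 2) where
  toFun := ![some 0, some 1, none]
  invFun := oe 2 ![0, 1]
  left_inv := by intro i; fin_cases i <;> rfl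
  right_inv := by
    rintro (_ | i)
    · rfl
    · fin_cases i <;> rfl

lemma oe_e3 {α : Type} (w : α) (x : Fin 2 → α) : oe w x ∘ e3 = ![x 0, x 1, w] := by
  funext i
  fin_cases i <;> rfl

lemma conf {U : Set (Fin 2 → ℂ)} (hU : IsPreconnected U) {w : (Fin 2 → ℂ) → ℂ}
    (hw : ContinuousOn w U) {γ : ℂ} {η : ℝ} (h : ∀ u ∈ U, ‖w u - γ‖ ≠ η) {u₀ : Fin 2 → ℂ}
    (hu₀ : u₀ ∈ U) (h0 : ‖w u₀ - γ‖ < η) : ∀ u ∈ U, ‖w u - γ‖ < η := by
  intro u hu
  by_contra hcon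
  rw [not_lt] at hcon
  have hc : ContinuousOn (fun u => ‖w u - γ‖) U := (hw.sub continuousOn_const).norm
  obtain ⟨u', hu', he⟩ := hU.intermediate_value hu₀ hu hc ⟨h0.le, hcon⟩
  exact h u' hu' he

lemma exists_a {A R : ℝ} (hA : 1 ≤ A) (hR : A + 7 ≤ Real.log R) :
    ∃ n : ℕ, A * Real.log R ≤ 2 * Real.pi * n ∧ 2 * Real.pi * n ≤ Real.log R ^ 2 := by
  have hp := Real.pi_pos
  have hp1 := Real.pi_lt_d2
  have hl : 1 ≤ Real.log R := by linarith
  refine ⟨⌈A * Real.log R / (2 * Real.pi)⌉₊, ?_, ?_⟩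
  · have := Nat.le_ceil (A * Real.log R / (2 * Real.pi))
    rw [div_le_iff₀ (by positivity)] at this
    linarith
  · have := Nat.ceil_lt_add_one (a := A * Real.log R / (2 * Real.pi)) (by positivity)
    have h2 : 2 * Real.pi * (⌈A * Real.log R / (2 * Real.pi)⌉₊ : ℝ) ≤
        2 * Real.pi * (A * Real.log R / (2 * Real.pi) + 1) := by gcongr
    have h3 : 2 * Real.pi * (A * Real.log R / (2 * Real.pi) + 1) = A * Real.log R + 2 * Real.pi := by
      field_simp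
    nlinarith

lemma exp_ia (n : ℕ) : Complex.exp (Complex.I * ((2 * Real.pi * n : ℝ) : ℂ)) = 1 := by
  have := Complex.exp_nat_mul_two_pi_mul_I n
  rw [← this]
  congr 1
  push_cast
  ring

theorem slice (h1 : S_sheet) (h2 : S_bnd) (h3 : S_rootv) (h4 : S_fixp) (h5 : S_dcomp) :
    S_slice := by
  intro K _ _ S P d J γ hP hPv hRoot Q
  classical
  obtain ⟨Q', hQQ', hdc⟩ := h5 K S Q
  have hrange : Set.range ![S.z, S.t] = {S.z, S.t} := by
    rw [Matrix.range_cons, Matrix.range_cons, Matrix.range_empty, Set.union_empty]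
    rfl
  have halg : ∀ f : K, Al (Set.range ![S.z, S.t]) f := by
    intro f
    rw [hrange]
    exact S.alg f
  obtain ⟨T, hT⟩ : ∃ T : Finset K, T = insert S.v (insert S.y Q') := ⟨_, rfl⟩
  have hvT : S.v ∈ T := by rw [hT]; simp
  have hyT : S.y ∈ T := by rw [hT]; simp
  have hQT : ∀ k ∈ Q', k ∈ T := by intro k hk; rw [hT]; simp [hk]
  obtain ⟨H, hH, -, hsh, hlift⟩ := h1 2 K ![S.z, S.t] T (fun k => (k : K)) S.ind (fun k => halg _)
  obtain ⟨g, hg, hlift⟩ := hlift ⟨S.v, hvT⟩ (rename e3 P)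
    ((MulEquiv.irreducible_iff (renameEquiv ℂ e3)).2 hP) (by
      rw [aeval_rename, oe_e3]
      exact hPv)
  obtain ⟨hb1, hb2⟩ := h2 K ![S.z, S.t] S.ind
  obtain ⟨C₁, R₁, hbnd⟩ := hb1 {k : T // (k : K) ≠ 0} (fun k => ((k : T) : K)) (fun k => halg _)
    (fun k => k.2)
  obtain ⟨R₂, hR₂⟩ := hb2 H hH
  obtain ⟨R₃, hR₃⟩ := hb2 g hg
  refine ⟨C₁, fun δ hδ => ?_⟩
  obtain ⟨η, R₄, hη0, hη, hroot⟩ := h3 P d J γ hRoot (δ / 2) (by positivity)
  obtain ⟨A, hA⟩ : ∃ A : ℝ, A = 256 * (6 * |C₁| + 10) := ⟨_, rfl⟩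
  have hA1 : 1 ≤ A := by rw [hA]; nlinarith [abs_nonneg C₁]
  refine ⟨max (max R₁ R₂) (max (max R₃ R₄) (Real.exp (A + 7))), fun R hR ω hω => ?_⟩
  have hR1 : R₁ ≤ R := (le_max_left _ _).trans ((le_max_left _ _).trans hR)
  have hR2 : R₂ ≤ R := (le_max_right _ _).trans ((le_max_left _ _).trans hR)
  have hR3 : R₃ ≤ R := (le_max_left _ _).trans ((le_max_left _ _).trans ((le_max_right _ _).trans hR))
  have hR4 : R₄ ≤ R := (le_max_right _ _).trans ((le_max_left _ _).trans ((le_max_right _ _).trans hR))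
  have hR5 : Real.exp (A + 7) ≤ R := (le_max_right _ _).trans ((le_max_right _ _).trans hR)
  have hR0 : 0 < R := (Real.exp_pos _).trans_le hR5
  have hlog : A + 7 ≤ Real.log R := by
    rw [Real.le_log_iff_exp_le hR0]; exact hR5
  have hlog1 : 1 ≤ Real.log R := by linarith
  obtain ⟨n, hn1, hn2⟩ := exists_a hA1 hlog
  obtain ⟨a, ha⟩ : ∃ a : ℝ, a = 2 * Real.pi * n := ⟨_, rfl⟩
  rw [← ha] at hn1 hn2
  have ha1 : Real.log R ≤ a := by nlinarith
  have ha0 : 0 < a := by linarith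
  -- the affine map
  obtain ⟨X, hX⟩ : ∃ X : (Fin 2 → ℂ) → Fin 2 → ℂ, X = fun u =>
    ![Complex.I * a + (a / 2) * u 0, R * ω + (R / 2) * u 1] := ⟨_, rfl⟩
  have hX0 : ∀ u, X u 0 = Complex.I * a + (a / 2) * u 0 := fun u => by rw [hX]; rfl
  have hX1 : ∀ u, X u 1 = R * ω + (R / 2) * u 1 := fun u => by rw [hX]; rfl
  have hreg : ∀ u ∈ ball (0 : Fin 2 → ℂ) 1, X u ∈ reg a R ω := by
    intro u hu
    rw [mem_ball_zero_iff] at hu
    constructor
    · rw [hX0, add_sub_cancel_left, norm_mul]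
      have e : ‖((a : ℂ) / 2)‖ = a / 2 := by
        rw [norm_div, Complex.norm_real, Real.norm_eq_abs, abs_of_pos ha0]; norm_num
      rw [e]
      have := (norm_le_pi_norm u 0).trans_lt hu
      nlinarith
    · rw [hX1, add_sub_cancel_left, norm_mul]
      have e : ‖((R : ℂ) / 2)‖ = R / 2 := by
        rw [norm_div, Complex.norm_real, Real.norm_eq_abs, abs_of_pos hR0]; norm_num
      rw [e]
      have := (norm_le_pi_norm u 1).trans_lt hu
      nlinarith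
  have hXd : DifferentiableOn ℂ X (ball 0 1) := by
    rw [hX, differentiableOn_pi]
    intro i
    fin_cases i
    · show DifferentiableOn ℂ (fun u : Fin 2 → ℂ => Complex.I * a + (a / 2) * u 0) _
      fun_prop
    · show DifferentiableOn ℂ (fun u : Fin 2 → ℂ => R * ω + (R / 2) * u 1) _
      fun_prop
  have h0 : (0 : Fin 2 → ℂ) ∈ ball (0 : Fin 2 → ℂ) 1 := mem_ball_self one_pos
  -- the point over the centre
  obtain ⟨w₀, hw₀, hw₀'⟩ := (hroot R a hR4 ha1 hn2 ω hω (X 0) (hreg 0 h0)).2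
  obtain ⟨q₀, hq₀, hq₀v⟩ := hlift (X 0) (X 0 1 * w₀) (hR₃ R a hR3 ha1 hn2 ω hω (X 0) (hreg 0 h0)) (by
    rw [eval_rename, oe_e3]
    exact hw₀')
  obtain ⟨q, hqd, hq0, hqpt⟩ := hsh (Fin 2 → ℂ) (ball 0 1) X isOpen_ball (convex_ball _ _) hXd
    (fun u hu => hR₂ R a hR2 ha1 hn2 ω hω (X u) (hreg u hu)) 0 h0 q₀ hq₀
  -- bounds
  have hbd : ∀ u ∈ ball (0 : Fin 2 → ℂ) 1, ∀ k : T, (k : K) ≠ 0 →
      R ^ (-C₁) ≤ ‖q u k‖ ∧ ‖q u k‖ ≤ R ^ C₁ := by
    intro u hu k hk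
    have h := pt_comp (hqpt u hu) (Sum.map id (fun k : {k : T // (k : K) ≠ 0} => (k : T)))
    have e1 : (Sum.elim (X u) (q u)) ∘ (Sum.map id (fun k : {k : T // (k : K) ≠ 0} => (k : T))) =
        Sum.elim (X u) (fun k : {k : T // (k : K) ≠ 0} => q u k) := by
      funext i; rcases i with i | i <;> rfl
    have e2 : (Sum.elim ![S.z, S.t] (fun k : T => (k : K))) ∘
        (Sum.map id (fun k : {k : T // (k : K) ≠ 0} => (k : T))) =
        Sum.elim ![S.z, S.t] (fun k : {k : T // (k : K) ≠ 0} => ((k : T) : K)) := by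
      funext i; rcases i with i | i <;> rfl
    rw [e1, e2] at h
    exact hbnd R a hR1 ha1 hn2 ω hω (X u) (hreg u hu) _ h ⟨k, hk⟩
  have hX1ne : ∀ u ∈ ball (0 : Fin 2 → ℂ) 1, X u 1 ≠ 0 := by
    intro u hu h
    have h1 := (hreg u hu).2
    rw [h, zero_sub, norm_neg, norm_mul, hω, Complex.norm_real, Real.norm_eq_abs,
      abs_of_pos hR0] at h1
    linarith
  -- the `v`-value
  have hconf : ∀ u ∈ ball (0 : Fin 2 → ℂ) 1, ‖q u ⟨S.v, hvT⟩ / X u 1 - γ‖ < η := by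
    refine conf (convex_ball (0 : Fin 2 → ℂ) 1).isPreconnected ?_ ?_ h0 ?_
    · refine ContinuousOn.div ?_ ?_ hX1ne
      · exact (continuousOn_pi.1 hqd.continuousOn) ⟨S.v, hvT⟩
      · exact (continuousOn_pi.1 hXd.continuousOn) 1
    · intro u hu he
      refine (hroot R a hR4 ha1 hn2 ω hω (X u) (hreg u hu)).1 _ he ?_
      rw [mul_div_cancel₀ _ (hX1ne u hu)]
      have h := pt_comp (hqpt u hu) (![Sum.inl 0, Sum.inl 1, Sum.inr ⟨S.v, hvT⟩] : Fin 3 → Fin 2 ⊕ T)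
      refine (congrArg (fun p => eval p P) ?_).trans (h P ?_)
      · funext i; fin_cases i <;> rfl
      · refine (congrArg (fun p => aeval p P) ?_).trans hPv
        funext i; fin_cases i <;> rfl
    · rw [hq0, hq₀v, mul_div_cancel_left₀ _ (hX1ne 0 h0)]
      exact hw₀
  -- the logarithm
  have hyd : DifferentiableOn ℂ (fun u => q u ⟨S.y, hyT⟩) (ball 0 1) :=
    (differentiableOn_pi.1 hqd) ⟨S.y, hyT⟩
  have hyb : ∀ u ∈ ball (0 : Fin 2 → ℂ) 1, R ^ (-C₁) ≤ ‖q u ⟨S.y, hyT⟩‖ ∧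
      ‖q u ⟨S.y, hyT⟩‖ ≤ R ^ C₁ := fun u hu => hbd u hu ⟨S.y, hyT⟩ S.y0
  have hyne : ∀ u ∈ ball (0 : Fin 2 → ℂ) 1, q u ⟨S.y, hyT⟩ ≠ 0 := by
    intro u hu h
    have := (hyb u hu).1
    rw [h, norm_zero] at this
    exact absurd (Real.rpow_pos_of_pos hR0 (-C₁)) (not_lt.2 this)
  obtain ⟨ℓ, hℓd, hℓe, hℓ0⟩ := Pool.Agent.Q177.EG.log 2 0 1 _ one_pos hyd hyne
  have hℓre : ∀ u ∈ ball (0 : Fin 2 → ℂ) 1, |(ℓ u).re| ≤ |C₁| * Real.log R := by
    intro u hu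
    have e1 : (ℓ u).re = Real.log ‖q u ⟨S.y, hyT⟩‖ := by
      rw [← hℓe u hu, Complex.norm_exp, Real.log_exp]
    have hpos := norm_pos_iff.2 (hyne u hu)
    have e2 := Real.log_le_log hpos (hyb u hu).2
    have e3 := Real.log_le_log (Real.rpow_pos_of_pos hR0 _) (hyb u hu).1
    rw [Real.log_rpow hR0] at e2 e3
    rw [e1, abs_le]
    have h7 := le_abs_self C₁
    constructor <;> nlinarith
  have hℓb := Pool.Agent.Q177.EG.bc 2 0 1 (|C₁| * Real.log R) ℓ one_pos (by positivity) hℓd hℓre hℓ0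
  -- the fixed point
  have hhalf : ∀ u ∈ ball (0 : Fin 2 → ℂ) 1, (1 / 2 : ℂ) • u ∈ ball (0 : Fin 2 → ℂ) (1 / 2) := by
    intro u hu
    rw [mem_ball_zero_iff] at hu ⊢
    rw [norm_smul]
    norm_num
    linarith
  have hsub : ball (0 : Fin 2 → ℂ) (1 / 2) ⊆ ball 0 1 := ball_subset_ball (by norm_num)
  obtain ⟨φ, hφd, hφ⟩ := h4 (fun u => (4 / a : ℂ) * ℓ ((1 / 2 : ℂ) • u)) (by
    refine DifferentiableOn.const_mul ?_ _
    refine DifferentiableOn.comp (t := ball (0 : Fin 2 → ℂ) 1) hℓd ?_ ?_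
    · fun_prop
    · intro u hu; exact hsub (hhalf u hu)) (by
    intro u hu
    have e1 := hℓb _ (hhalf u hu)
    rw [norm_mul]
    have e2 : ‖(4 / a : ℂ)‖ = 4 / a := by
      rw [norm_div, Complex.norm_real, Real.norm_eq_abs, abs_of_pos ha0]; norm_num
    rw [e2, div_mul_eq_mul_div, div_le_iff₀ ha0]
    have e3 : 256 * (6 * (|C₁| * Real.log R) + 10) ≤ a := by
      rw [hA] at hn1
      nlinarith [abs_nonneg C₁]
    nlinarith)
  -- the parametrization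
  obtain ⟨s, hs⟩ : ∃ s : ℂ → ℂ, s = fun τ => (τ - R * ω) * (4 / R) := ⟨_, rfl⟩
  have hR0' : (R : ℂ) ≠ 0 := by exact_mod_cast hR0.ne'
  have ha0' : (a : ℂ) ≠ 0 := by exact_mod_cast ha0.ne'
  have hsb : ∀ τ ∈ ball (R * ω : ℂ) (R / 8), s τ ∈ ball (0 : ℂ) 1 := by
    intro τ hτ
    rw [mem_ball, dist_eq_norm] at hτ
    rw [mem_ball_zero_iff, hs]
    simp only
    have e2 : ‖(4 / R : ℂ)‖ = 4 / R := by
      rw [norm_div, Complex.norm_real, Real.norm_eq_abs, abs_of_pos hR0]; norm_num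
    rw [norm_mul, e2, mul_div_assoc', div_lt_one hR0]
    linarith
  have hsd : DifferentiableOn ℂ s (ball (R * ω : ℂ) (R / 8)) := by
    rw [hs]; fun_prop
  obtain ⟨u, hu⟩ : ∃ u : ℂ → Fin 2 → ℂ, u = fun τ => (1 / 2 : ℂ) • ![φ (s τ), s τ] := ⟨_, rfl⟩
  have hus : ∀ τ ∈ ball (R * ω : ℂ) (R / 8), ![φ (s τ), s τ] ∈ ball (0 : Fin 2 → ℂ) 1 := by
    intro τ hτ
    rw [mem_ball_zero_iff, pi_norm_lt_iff one_pos]
    intro i
    fin_cases i
    · show ‖φ (s τ)‖ < 1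
      have := (hφ _ (hsb τ hτ)).1
      linarith
    · show ‖s τ‖ < 1
      have := hsb τ hτ
      rwa [mem_ball_zero_iff] at this
  have hub : ∀ τ ∈ ball (R * ω : ℂ) (R / 8), u τ ∈ ball (0 : Fin 2 → ℂ) 1 := by
    intro τ hτ
    rw [hu]
    exact hsub (hhalf _ (hus τ hτ))
  have hud : DifferentiableOn ℂ u (ball (R * ω : ℂ) (R / 8)) := by
    have hφs : DifferentiableOn ℂ (fun τ => φ (s τ)) (ball (R * ω : ℂ) (R / 8)) :=
      hφd.comp hsd (fun τ hτ => hsb τ hτ)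
    rw [hu]
    have hpi : DifferentiableOn ℂ (fun τ => (![φ (s τ), s τ] : Fin 2 → ℂ))
        (ball (R * ω : ℂ) (R / 8)) := ?_
    · exact hpi.const_smul (1 / 2 : ℂ)
    rw [differentiableOn_pi]
    intro i
    fin_cases i
    · exact hφs
    · exact hsd
  have hXu0 : ∀ τ, X (u τ) 0 = Complex.I * a + (a / 4) * φ (s τ) := by
    intro τ
    rw [hX0, hu]
    simp only [Pi.smul_apply, smul_eq_mul, Matrix.cons_val_zero]
    ring
  have hXu1 : ∀ τ, X (u τ) 1 = τ := by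
    intro τ
    rw [hX1, hu, hs]
    simp only [Pi.smul_apply, smul_eq_mul, Matrix.cons_val_one, Matrix.cons_val_fin_one]
    field_simp
    ring
  have hexp : ∀ τ ∈ ball (R * ω : ℂ) (R / 8),
      Complex.exp (X (u τ) 0) = q (u τ) ⟨S.y, hyT⟩ := by
    intro τ hτ
    have e1 := (hφ _ (hsb τ hτ)).2
    have e2 : (a / 4 : ℂ) * φ (s τ) = ℓ (u τ) := by
      rw [e1, hu]
      simp only
      field_simp
    rw [hXu0, e2, Complex.exp_add, hℓe _ (hub τ hτ), ha, exp_ia, one_mul]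
  -- all values
  obtain ⟨q', hq'⟩ : ∃ q' : K → ℂ → ℂ, ∀ (k : K) (hk : k ∈ T) (τ : ℂ), q' k τ = q (u τ) ⟨k, hk⟩ :=
    ⟨fun k τ => if hk : k ∈ T then q (u τ) ⟨k, hk⟩ else 0, fun k hk τ => dif_pos hk⟩
  have hq'd : ∀ k ∈ T, DifferentiableOn ℂ (q' k) (ball (R * ω : ℂ) (R / 8)) := by
    intro k hk
    have e : q' k = fun τ => q (u τ) ⟨k, hk⟩ := funext fun τ => hq' k hk τ
    rw [e]
    exact ((differentiableOn_pi.1 hqd) ⟨k, hk⟩).comp hud (fun τ hτ => hub τ hτ)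
  have hpt : ∀ Q'' : Finset K, (∀ k ∈ Q'', k ∈ T) → ∀ τ ∈ ball (R * ω : ℂ) (R / 8),
      Sum.elim ![X (u τ) 0, τ, q' S.v τ, Complex.exp (X (u τ) 0)] (fun k : Q'' => q' k τ) ∈
        Pt (Sum.elim ![S.z, S.t, S.v, S.y] (fun k : Q'' => (k : K))) := by
    intro Q'' hQ'' τ hτ
    have h := pt_comp (hqpt (u τ) (hub τ hτ))
      (Sum.elim ![Sum.inl 0, Sum.inl 1, Sum.inr ⟨S.v, hvT⟩, Sum.inr ⟨S.y, hyT⟩]
        (fun k : Q'' => Sum.inr ⟨k, hQ'' k k.2⟩) : Fin 4 ⊕ Q'' → Fin 2 ⊕ T)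
    have e1 : Sum.elim (X (u τ)) (q (u τ)) ∘
        (Sum.elim ![Sum.inl 0, Sum.inl 1, Sum.inr ⟨S.v, hvT⟩, Sum.inr ⟨S.y, hyT⟩]
        (fun k : Q'' => Sum.inr ⟨k, hQ'' k k.2⟩) : Fin 4 ⊕ Q'' → Fin 2 ⊕ T) =
        Sum.elim ![X (u τ) 0, τ, q' S.v τ, Complex.exp (X (u τ) 0)] (fun k : Q'' => q' k τ) := by
      funext i
      rcases i with i | i
      · fin_cases i
        · rfl
        · exact hXu1 τ
        · exact (hq' S.v hvT τ).symm
        · exact (hexp τ hτ).symm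
      · exact (hq' i (hQ'' i i.2) τ).symm
    have e2 : Sum.elim ![S.z, S.t] (fun k : T => (k : K)) ∘
        (Sum.elim ![Sum.inl 0, Sum.inl 1, Sum.inr ⟨S.v, hvT⟩, Sum.inr ⟨S.y, hyT⟩]
        (fun k : Q'' => Sum.inr ⟨k, hQ'' k k.2⟩) : Fin 4 ⊕ Q'' → Fin 2 ⊕ T) =
        Sum.elim ![S.z, S.t, S.v, S.y] (fun k : Q'' => (k : K)) := by
      funext i
      rcases i with i | i
      · fin_cases i <;> rfl
      · rfl
    rw [e1, e2] at h
    exact h
  have hXd' : DifferentiableOn ℂ (fun τ => X (u τ) 0) (ball (R * ω : ℂ) (R / 8)) :=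
    ((differentiableOn_pi.1 hXd) 0).comp hud (fun τ hτ => hub τ hτ)
  have hq'b : ∀ τ ∈ ball (R * ω : ℂ) (R / 8), ∀ k ∈ T, k ≠ 0 →
      R ^ (-C₁) ≤ ‖q' k τ‖ ∧ ‖q' k τ‖ ≤ R ^ C₁ := by
    intro τ hτ k hk hk0
    rw [hq' k hk]
    exact hbd _ (hub τ hτ) ⟨k, hk⟩ hk0
  have hder := hdc (ball (R * ω : ℂ) (R / 8)) (fun τ => X (u τ) 0) (q' S.v) q' isOpen_ball hXd'
    (hq'd _ hvT) (fun k hk => hq'd k (hQT k hk)) (hpt Q' hQT) (by
      intro τ hτ k hk hk0 h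
      have := (hq'b τ hτ k (hQT k hk) hk0).1
      rw [h, norm_zero] at this
      exact absurd (Real.rpow_pos_of_pos hR0 (-C₁)) (not_lt.2 this))
  refine ⟨fun τ => X (u τ) 0, q' S.v, q', hXd', hq'd _ hvT, fun k hk => hq'd k (hQT k (hQQ' hk)),
    hpt Q (fun k hk => hQT k (hQQ' hk)), ?_, ?_, hder.1, hder.2⟩
  · intro τ hτ
    have e1 := hconf _ (hub τ hτ)
    rw [hXu1, ← hq' S.v hvT] at e1
    have hτ0 : τ ≠ 0 := by
      have := hX1ne _ (hub τ hτ)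
      rwa [hXu1] at this
    have e2 : q' S.v τ - γ * τ = (q' S.v τ / τ - γ) * τ := by
      rw [sub_mul, div_mul_cancel₀ _ hτ0]
    have e3 : ‖τ‖ ≤ 2 * R := by
      rw [mem_ball, dist_eq_norm] at hτ
      have h1 : ‖τ‖ ≤ ‖τ - R * ω‖ + ‖(R * ω : ℂ)‖ := by
        have := norm_add_le (τ - R * ω) (R * ω)
        simpa using this
      rw [norm_mul, hω, Complex.norm_real, Real.norm_eq_abs, abs_of_pos hR0] at h1
      linarith
    rw [e2, norm_mul]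
    calc ‖q' S.v τ / τ - γ‖ * ‖τ‖ ≤ (δ / 2) * (2 * R) := by
          gcongr
          exact (e1.trans hη).le
      _ = δ * R := by ring
  · intro τ hτ k hk
    have hkT := hQT k (hQQ' hk)
    by_cases hk0 : k = 0
    · refine ⟨?_, fun h => absurd hk0 h⟩
      have : q' k τ = 0 := by
        rw [hq' k hkT]
        exact pt_zero (hqpt (u τ) (hub τ hτ)) (s := Sum.inr ⟨k, hkT⟩) hk0
      rw [this, norm_zero]
      exact (Real.rpow_pos_of_pos hR0 C₁).le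
    · have := hq'b τ hτ k hkT hk0
      exact ⟨this.2, fun _ => this.1⟩

end Pool.Agent.H388.EX
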