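import Pool.Agent.H664.EX.Stm2

/-! Project EX (helper664), job ZEROF: zeros of exponential sums on the slices. -/

set_option autoImplicit false

namespace Pool.Agent.H388.EX

open MvPolynomial Filter Topology Metric Pool.Agent.W996.EC Pool.Agent.Q72.EG Pool.Agent.H664.EX
  Pool.Agent.H664.FH

namespace ZF

/-- the slope of an exponent -/
noncomputable def sl (γ : ℂ) (e : ℕ × ℕ) : ℂ := (e.1 : ℂ) + e.2 * γ

lemma big (A C κ : ℝ) (hκ : 0 < κ) : ∃ R₀ : ℝ, ∀ R : ℝ, R₀ ≤ R → 1 ≤ R ∧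
    A * R ^ C ≤ Real.exp (κ * R) := by
  have h1 := (tendsto_rpow_mul_exp_neg_mul_atTop_nhds_zero C κ hκ).const_mul A
  rw [mul_zero] at h1
  have h2 := (h1.eventually (gt_mem_nhds one_pos)).and (eventually_ge_atTop (1 : ℝ))
  obtain ⟨R₀, hR₀⟩ := eventually_atTop.1 h2
  refine ⟨R₀, fun R hR => ?_⟩
  obtain ⟨h3, h4⟩ := hR₀ R hR
  refine ⟨h4, ?_⟩
  have h5 : A * R ^ C = A * (R ^ C * Real.exp (-κ * R)) * Real.exp (κ * R) := by
    rw [mul_assoc, mul_assoc, ← Real.exp_add]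
    simp
  rw [h5]
  have h6 := Real.exp_pos (κ * R)
  nlinarith

section slat

variable {K : Type} [Field K] [Algebra ℂ K] {S : Sl K} {Q : Finset K} {ω γ : ℂ}
  {C δ R : ℝ} {X V : ℂ → ℂ} {q : K → ℂ → ℂ}

lemma mono {δ' : ℝ} (h : SlAt S Q ω γ C δ R X V q) (hR : 0 < R) (hδ : δ ≤ δ') :
    SlAt S Q ω γ C δ' R X V q :=
  ⟨h.dX, h.dV, h.dq, h.pt, fun τ hτ => (h.bV τ hτ).trans (by gcongr), h.bq, h.der, h.derV⟩

lemma mem_big {s : ℂ} (hR : 0 < R) (hs : s ∈ ball ω (1 / 8)) :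
    (R : ℂ) * s ∈ ball (R * ω : ℂ) (R / 8) := by
  rw [mem_ball, dist_eq_norm] at hs ⊢
  rw [← mul_sub, norm_mul, Complex.norm_real, Real.norm_eq_abs, abs_of_pos hR]
  nlinarith

/-- the absolute value of the exponential factor -/
lemma norm_term (h : SlAt S Q ω γ C δ R X V q) (hR : 0 < R) {s : ℂ}
    (hs : (R : ℂ) * s ∈ ball (R * ω : ℂ) (R / 8)) (e : ℕ × ℕ) :
    Real.exp (R * ((sl γ e * s).re - e.2 * δ)) ≤
      ‖Complex.exp ((e.1 : ℂ) * (R * s) + e.2 * V (R * s))‖ ∧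
    ‖Complex.exp ((e.1 : ℂ) * (R * s) + e.2 * V (R * s))‖ ≤
      Real.exp (R * ((sl γ e * s).re + e.2 * δ)) := by
  have h1 := h.bV _ hs
  have h2 := Complex.abs_re_le_norm (V (R * s) - γ * (R * s))
  have h3 : ((e.1 : ℂ) * (R * s) + e.2 * V (R * s)).re =
      R * (sl γ e * s).re + e.2 * (V (R * s) - γ * (R * s)).re := by
    have h4 : (e.1 : ℂ) * (R * s) + e.2 * V (R * s) =
        (R : ℂ) * (sl γ e * s) + ((e.2 : ℝ) : ℂ) * (V (R * s) - γ * (R * s)) := by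
      rw [sl]; push_cast; ring
    rw [h4, Complex.add_re, Complex.re_ofReal_mul, Complex.re_ofReal_mul]
  have h5 := abs_le.1 (h2.trans h1)
  have h6 : (0 : ℝ) ≤ e.2 := Nat.cast_nonneg _
  rw [Complex.norm_exp, h3]
  constructor
  · apply Real.exp_le_exp.2
    nlinarith [mul_le_mul_of_nonneg_left h5.1 h6]
  · apply Real.exp_le_exp.2
    nlinarith [mul_le_mul_of_nonneg_left h5.2 h6]

end slat

/-- the lower bound for one slope -/
lemma low (h2 : S_zero2) {K : Type} [Field K] [Algebra ℂ K] (S : Sl K) {γ : ℂ}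
    (hγ : (∀ a b : ℤ, (a : ℂ) + b * γ = 0 → a = 0 ∧ b = 0) ∨
      (γ = 0 ∧ ∀ c : K, c ≠ 0 → ∀ j : ℤ, j ≠ 0 → S.D c ≠ j * S.D S.v * c))
    (N : Finset (ℕ × ℕ)) (c : ℕ × ℕ → K) (hc : ∀ e ∈ N, c e ≠ 0) {e₀ : ℕ × ℕ} (he₀ : e₀ ∈ N)
    [DecidablePred fun e => sl γ e = sl γ e₀] :
    ∃ Q₀ : Finset K, ∀ Q : Finset K, Q₀ ⊆ Q → (∀ e ∈ N, c e ∈ Q) → ∀ C η ρ : ℝ, 0 < η → 0 < ρ →
      ∃ δ R₀ : ℝ, 0 < δ ∧ ∀ R : ℝ, R₀ ≤ R → ∀ (ω : ℂ) (X V : ℂ → ℂ) (q : K → ℂ → ℂ),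
        SlAt S Q ω γ C δ R X V q → ∀ p : ℂ, ball p ρ ⊆ ball ω (1 / 8) →
        ∃ s ∈ ball p ρ, Real.exp (R * ((sl γ e₀ * s).re - η)) ≤
          ‖∑ e ∈ N.filter (fun e => sl γ e = sl γ e₀),
            q (c e) (R * s) * Complex.exp ((e.1 : ℂ) * (R * s) + e.2 * V (R * s))‖ := by
  classical
  rcases hγ with hγ | ⟨rfl, hD⟩
  · -- one term
    refine ⟨∅, fun Q _ hcQ C η ρ hη hρ => ?_⟩
    obtain ⟨R₀, hR₀⟩ := big 1 C (η / 2) (by positivity)
    refine ⟨η / (2 * (e₀.2 + 1)), R₀, by positivity, fun R hR ω X V q hS p hp => ?_⟩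
    obtain ⟨hR1, hR2⟩ := hR₀ R hR
    have hR0 : 0 < R := by linarith
    refine ⟨p, mem_ball_self hρ, ?_⟩
    have hpω : p ∈ ball ω (1 / 8) := hp (mem_ball_self hρ)
    have hfil : N.filter (fun e => sl γ e = sl γ e₀) = {e₀} := by
      ext e
      rw [Finset.mem_filter, Finset.mem_singleton]
      constructor
      · rintro ⟨-, he⟩
        have h1 : (((e.1 : ℤ) - e₀.1 : ℤ) : ℂ) + (((e.2 : ℤ) - e₀.2 : ℤ) : ℂ) * γ = 0 := by
          rw [sl, sl] at he
          push_cast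
          linear_combination he
        obtain ⟨h2, h3⟩ := hγ _ _ h1
        apply Prod.ext <;> omega
      · rintro rfl
        exact ⟨he₀, rfl⟩
    rw [hfil, Finset.sum_singleton, norm_mul]
    have h1 := (norm_term hS hR0 (mem_big hR0 hpω) e₀).1
    have h2 := (hS.bq _ (mem_big hR0 hpω) (c e₀) (hcQ e₀ he₀)).2 (hc e₀ he₀)
    have h3 : Real.exp (-(η / 2 * R)) ≤ R ^ (-C) := by
      rw [Real.exp_neg, Real.rpow_neg hR0.le]
      gcongr
      linarith
    have h4 : (e₀.2 : ℝ) * (η / (2 * (e₀.2 + 1))) ≤ η / 2 := by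
      rw [mul_div_assoc', div_le_div_iff₀ (by positivity) (by positivity)]
      have : (0 : ℝ) ≤ e₀.2 := Nat.cast_nonneg _
      nlinarith
    calc Real.exp (R * ((sl γ e₀ * p).re - η))
        ≤ Real.exp (-(η / 2 * R)) *
          Real.exp (R * ((sl γ e₀ * p).re - e₀.2 * (η / (2 * (e₀.2 + 1))))) := by
          rw [← Real.exp_add]
          apply Real.exp_le_exp.2
          nlinarith [mul_le_mul_of_nonneg_left h4 hR0.le]
      _ ≤ _ := mul_le_mul (h3.trans h2) h1 (Real.exp_pos _).le (norm_nonneg _)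
  · -- `γ = 0`
    have hsl : ∀ e : ℕ × ℕ, sl 0 e = sl 0 e₀ ↔ e.1 = e₀.1 := by
      intro e
      rw [sl, sl, mul_zero, mul_zero, add_zero, add_zero]
      exact Nat.cast_inj
    obtain ⟨F, hF⟩ : ∃ F : Finset ℕ, F = (N.filter (fun e => sl 0 e = sl 0 e₀)).image Prod.snd :=
      ⟨_, rfl⟩
    have hFmem : ∀ b, b ∈ F ↔ (e₀.1, b) ∈ N := by
      intro b
      rw [hF, Finset.mem_image]
      constructor
      · rintro ⟨e, he, rfl⟩
        rw [Finset.mem_filter, hsl] at he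
        have : (e₀.1, e.2) = e := by rw [← he.2]
        rw [this]; exact he.1
      · intro h
        exact ⟨(e₀.1, b), by rw [Finset.mem_filter, hsl]; exact ⟨h, rfl⟩, rfl⟩
    obtain ⟨Q₀, hQ₀⟩ := h2 K S hD F (fun b => c (e₀.1, b)) ⟨e₀.2, (hFmem _).2 he₀⟩
      (fun b hb => hc _ ((hFmem b).1 hb))
    refine ⟨Q₀, fun Q hQ _ C η ρ hη hρ => ?_⟩
    obtain ⟨δ, R₀, hδ, hR₀⟩ := hQ₀ Q hQ C η ρ hη hρ
    refine ⟨δ, max R₀ 1, hδ, fun R hR ω X V q hS p hp => ?_⟩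
    have hR0 : 0 < R := lt_of_lt_of_le one_pos ((le_max_right _ _).trans hR)
    have hRc : (R : ℂ) ≠ 0 := by exact_mod_cast hR0.ne'
    have hsub : ball ((R : ℂ) * p) (ρ * R) ⊆ ball (R * ω : ℂ) (R / 8) := by
      intro τ hτ
      rw [mem_ball, dist_eq_norm] at hτ
      have h1 : τ / R ∈ ball p ρ := by
        rw [mem_ball, dist_eq_norm]
        have e1 : τ / R - p = (τ - R * p) / R := by field_simp
        rw [e1, norm_div, Complex.norm_real, Real.norm_eq_abs, abs_of_pos hR0, div_lt_iff₀ hR0]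
        exact hτ
      have h2 := mem_big hR0 (hp h1)
      rwa [mul_div_cancel₀ _ hRc] at h2
    obtain ⟨τ, hτ, hlow⟩ := hR₀ R ((le_max_left _ _).trans hR) ω X V q hS (R * p) hsub
    refine ⟨τ / R, ?_, ?_⟩
    · rw [mem_ball, dist_eq_norm] at hτ ⊢
      have e1 : τ / R - p = (τ - R * p) / R := by field_simp
      rw [e1, norm_div, Complex.norm_real, Real.norm_eq_abs, abs_of_pos hR0, div_lt_iff₀ hR0]
      exact hτ
    · rw [mul_div_cancel₀ _ hRc]
      have hsum : ∑ e ∈ N.filter (fun e => sl 0 e = sl 0 e₀),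
          q (c e) τ * Complex.exp ((e.1 : ℂ) * τ + e.2 * V τ) =
          Complex.exp ((e₀.1 : ℂ) * τ) * ∑ b ∈ F, q (c (e₀.1, b)) τ * Complex.exp ((b : ℂ) * V τ) := by
        rw [Finset.mul_sum, hF, Finset.sum_image]
        · refine Finset.sum_congr rfl fun e he => ?_
          rw [Finset.mem_filter, hsl] at he
          have : (e₀.1, e.2) = e := by rw [← he.2]
          rw [this, he.2, Complex.exp_add]
          ring
        · intro e he e' he' h
          rw [Finset.mem_coe, Finset.mem_filter, hsl] at he he'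
          exact Prod.ext (he.2.trans he'.2.symm) h
      rw [hsum, norm_mul, Complex.norm_exp]
      have h3 : R * ((sl 0 e₀ * (τ / R)).re - η) = ((e₀.1 : ℂ) * τ).re + -(η * R) := by
        have h4 : ((e₀.1 : ℂ) * τ).re = R * (sl 0 e₀ * (τ / R)).re := by
          rw [← Complex.re_ofReal_mul, sl]
          congr 1
          field_simp
          ring
        rw [h4]; ring
      rw [h3, Real.exp_add]
      exact mul_le_mul_of_nonneg_left hlow (Real.exp_pos _).le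

/-- a uniform gap -/
lemma gap (T : Finset ℂ) {s₁ p : ℂ} (h : ∀ s ∈ T, s ≠ s₁ → (s * p).re < (s₁ * p).re) (hs₁ : s₁ ∈ T) :
    ∃ g r : ℝ, 0 < g ∧ 0 < r ∧ ∀ x ∈ ball p r, ∀ s ∈ T, s ≠ s₁ → (s * x).re + g ≤ (s₁ * x).re := by
  classical
  obtain ⟨B, hB0, hB⟩ : ∃ B : ℝ, 0 < B ∧ ∀ s ∈ T, ‖s‖ ≤ B := by
    refine ⟨∑ s ∈ T, ‖s‖ + 1, by positivity, fun s hs => ?_⟩
    have := Finset.single_le_sum (f := fun s : ℂ => ‖s‖) (fun _ _ => norm_nonneg _) hs
    linarith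
  obtain ⟨g, hg, hg'⟩ : ∃ g : ℝ, 0 < g ∧ ∀ s ∈ T, s ≠ s₁ → (s * p).re + 2 * g ≤ (s₁ * p).re := by
    by_cases hne : (T.filter (· ≠ s₁)).Nonempty
    · obtain ⟨s', hs', hmin⟩ := (T.filter (· ≠ s₁)).exists_min_image
        (fun s => (s₁ * p).re - (s * p).re) hne
      rw [Finset.mem_filter] at hs'
      refine ⟨((s₁ * p).re - (s' * p).re) / 2, by have := h s' hs'.1 hs'.2; linarith, ?_⟩
      intro s hs hss
      have := hmin s (by rw [Finset.mem_filter]; exact ⟨hs, hss⟩)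
      linarith
    · refine ⟨1, one_pos, fun s hs hss => ?_⟩
      exact absurd ⟨s, by rw [Finset.mem_filter]; exact ⟨hs, hss⟩⟩ hne
  refine ⟨g, g / (2 * B), hg, by positivity, fun x hx s hs hss => ?_⟩
  rw [mem_ball, dist_eq_norm] at hx
  have key : ∀ s ∈ T, |(s * x).re - (s * p).re| ≤ g / 2 := by
    intro s hs
    rw [← Complex.sub_re, ← mul_sub]
    calc |(s * (x - p)).re| ≤ ‖s * (x - p)‖ := Complex.abs_re_le_norm _
      _ ≤ B * (g / (2 * B)) := by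
        rw [norm_mul]
        gcongr
        exact hB s hs
      _ = g / 2 := by field_simp
  have h1 := abs_le.1 (key s hs)
  have h2 := abs_le.1 (key s₁ hs₁)
  have h3 := hg' s hs hss
  linarith

end ZF

open ZF

theorem zeroF (h1 : S_slice) (h2 : S_zero2) (h3 : S_lim) (h4 : S_tie) : S_zeroF := by
  intro K _ _ S P d J γ hP hPv hRoot hγ N c Q hc hN
  classical
  obtain ⟨T, hT⟩ : ∃ T : Finset ℂ, T = N.image (sl γ) := ⟨_, rfl⟩
  have hTmem : ∀ e ∈ N, sl γ e ∈ T := fun e he => by rw [hT]; exact Finset.mem_image_of_mem _ he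
  have hcard : 2 ≤ T.card := by
    obtain ⟨e, he, e', he', hee⟩ := hN
    have hne : sl γ e ≠ sl γ e' := by
      intro h
      apply hee
      rcases hγ with hγ | ⟨rfl, -⟩
      · have h1 : (((e.1 : ℤ) - e'.1 : ℤ) : ℂ) + (((e.2 : ℤ) - e'.2 : ℤ) : ℂ) * γ = 0 := by
          rw [sl, sl] at h
          push_cast
          linear_combination h
        obtain ⟨h2, -⟩ := hγ _ _ h1
        omega
      · rw [sl, sl, mul_zero, mul_zero, add_zero, add_zero] at h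
        exact Nat.cast_injective h
    exact Finset.one_lt_card.2 ⟨_, hTmem e he, _, hTmem e' he', hne⟩
  obtain ⟨ω, hω, s₁, hs₁, s₂, hs₂, hs12, htie⟩ := h4 T hcard
  obtain ⟨p₁, p₂, hp₁, hp₂, hm₁, hm₂⟩ := htie (1 / 16) (by norm_num)
  obtain ⟨g₁, r₁, hg₁, hr₁, hgap₁⟩ := gap T hm₁ hs₁
  obtain ⟨g₂, r₂, hg₂, hr₂, hgap₂⟩ := gap T hm₂ hs₂
  obtain ⟨g, hg⟩ : ∃ g : ℝ, g = min g₁ g₂ := ⟨_, rfl⟩
  have hg0 : 0 < g := by rw [hg]; exact lt_min hg₁ hg₂
  obtain ⟨ρ, hρ⟩ : ∃ ρ : ℝ, ρ = min (1 / 16) (min r₁ r₂) := ⟨_, rfl⟩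
  have hρ0 : 0 < ρ := by rw [hρ]; positivity
  have hρ1 : ρ ≤ 1 / 16 := by rw [hρ]; exact min_le_left _ _
  have hρr₁ : ρ ≤ r₁ := by rw [hρ]; exact (min_le_right _ _).trans (min_le_left _ _)
  have hρr₂ : ρ ≤ r₂ := by rw [hρ]; exact (min_le_right _ _).trans (min_le_right _ _)
  have hG₁ : ∀ x ∈ ball p₁ ρ, ∀ s ∈ T, s ≠ s₁ → (s * x).re + g ≤ (s₁ * x).re := by
    intro x hx s hs hss
    have := hgap₁ x (ball_subset_ball hρr₁ hx) s hs hss
    have h7 : g ≤ g₁ := by rw [hg]; exact min_le_left _ _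
    linarith
  have hG₂ : ∀ x ∈ ball p₂ ρ, ∀ s ∈ T, s ≠ s₂ → (s * x).re + g ≤ (s₂ * x).re := by
    intro x hx s hs hss
    have := hgap₂ x (ball_subset_ball hρr₂ hx) s hs hss
    have h7 : g ≤ g₂ := by rw [hg]; exact min_le_right _ _
    linarith
  have hball : ∀ p : ℂ, ‖p - ω‖ < 1 / 16 → ball p ρ ⊆ ball ω (1 / 8) := by
    intro p hp
    apply ball_subset_ball'
    rw [dist_eq_norm]
    linarith
  have hTne : T.Nonempty := ⟨s₁, hs₁⟩
  obtain ⟨h, hh⟩ : ∃ h : ℂ → ℝ, ∀ s, h s = T.sup' hTne (fun σ => (σ * s).re) := ⟨_, fun _ => rfl⟩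
  have hle : ∀ s, ∀ σ ∈ T, (σ * s).re ≤ h s := by
    intro s σ hσ
    rw [hh]
    exact Finset.le_sup' (fun σ => (σ * s).re) hσ
  have heq₁ : ∀ s ∈ ball p₁ ρ, h s = (s₁ * s).re := by
    intro s hs
    apply le_antisymm
    · rw [hh]
      refine Finset.sup'_le _ _ fun σ hσ => ?_
      by_cases hσ1 : σ = s₁
      · rw [hσ1]
      · have := hG₁ s hs σ hσ hσ1
        linarith
    · exact hle s s₁ hs₁
  have heq₂ : ∀ s ∈ ball p₂ ρ, h s = (s₂ * s).re := by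
    intro s hs
    apply le_antisymm
    · rw [hh]
      refine Finset.sup'_le _ _ fun σ hσ => ?_
      by_cases hσ1 : σ = s₂
      · rw [hσ1]
      · have := hG₂ s hs σ hσ hσ1
        linarith
    · exact hle s s₂ hs₂
  have hB : ∃ B : ℝ, ∀ s ∈ ball ω (1 / 8), h s ≤ B := by
    refine ⟨(∑ σ ∈ T, ‖σ‖) * 2, fun s hs => ?_⟩
    rw [hh]
    refine Finset.sup'_le _ _ fun σ hσ => ?_
    have h5 := Finset.single_le_sum (f := fun s : ℂ => ‖s‖) (fun _ _ => norm_nonneg _) hσ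
    have h6 : ‖s‖ ≤ 2 := by
      rw [mem_ball, dist_eq_norm] at hs
      have := norm_add_le (s - ω) ω
      rw [sub_add_cancel, hω] at this
      linarith
    calc (σ * s).re ≤ ‖σ * s‖ := Complex.re_le_norm _
      _ = ‖σ‖ * ‖s‖ := norm_mul _ _
      _ ≤ (∑ σ ∈ T, ‖σ‖) * 2 := by gcongr
  obtain ⟨B, hB⟩ := hB
  obtain ⟨δL, RL, hδL, hlim⟩ := h3 ω p₁ p₂ s₁ s₂ (1 / 8) ρ B h hρ0 (hball p₁ hp₁) (hball p₂ hp₂) hB
    heq₁ heq₂ (fun s hs => by
      have := hG₂ s hs s₁ hs₁ hs12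
      linarith)
  -- the lower bounds
  obtain ⟨e₁, he₁, hse₁⟩ : ∃ e ∈ N, sl γ e = s₁ := by rw [hT] at hs₁; exact Finset.mem_image.1 hs₁
  obtain ⟨e₂, he₂, hse₂⟩ : ∃ e ∈ N, sl γ e = s₂ := by rw [hT] at hs₂; exact Finset.mem_image.1 hs₂
  obtain ⟨Q₁, hQ₁⟩ := low h2 S hγ N c (fun e he => (hc e he).1) he₁
  obtain ⟨Q₂, hQ₂⟩ := low h2 S hγ N c (fun e he => (hc e he).1) he₂
  obtain ⟨Qp, hQp⟩ : ∃ Qp : Finset K, Qp = Q ∪ (Q₁ ∪ Q₂) := ⟨_, rfl⟩
  have hQQp : Q ⊆ Qp := by rw [hQp]; exact Finset.subset_union_left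
  have hQ₁p : Q₁ ⊆ Qp := by
    rw [hQp]; exact Finset.subset_union_left.trans Finset.subset_union_right
  have hQ₂p : Q₂ ⊆ Qp := by
    rw [hQp]; exact Finset.subset_union_right.trans Finset.subset_union_right
  have hcQp : ∀ e ∈ N, c e ∈ Qp := fun e he => hQQp (hc e he).2
  obtain ⟨C, hslice⟩ := h1 K S P d J γ hP hPv hRoot Qp
  obtain ⟨η, hη⟩ : ∃ η : ℝ, η = min (δL / 2) (g / 4) := ⟨_, rfl⟩
  have hη0 : 0 < η := by rw [hη]; positivity
  have hη1 : η ≤ δL / 2 := by rw [hη]; exact min_le_left _ _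
  have hη2 : η ≤ g / 4 := by rw [hη]; exact min_le_right _ _
  obtain ⟨δ₁, R₁, hδ₁, hlow₁⟩ := hQ₁ Qp hQ₁p hcQp C η (ρ / 2) hη0 (by positivity)
  obtain ⟨δ₂, R₂, hδ₂, hlow₂⟩ := hQ₂ Qp hQ₂p hcQp C η (ρ / 2) hη0 (by positivity)
  obtain ⟨M, hM⟩ : ∃ M : ℝ, M = ∑ e ∈ N, (e.2 : ℝ) + 1 := ⟨_, rfl⟩
  have hM0 : 0 < M := by rw [hM]; positivity
  have hMe : ∀ e ∈ N, (e.2 : ℝ) ≤ M := by
    intro e he
    have := Finset.single_le_sum (f := fun e : ℕ × ℕ => (e.2 : ℝ)) (fun _ _ => Nat.cast_nonneg _) he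
    rw [hM]; linarith
  obtain ⟨δ, hδ⟩ : ∃ δ : ℝ, δ = min (min δ₁ δ₂) (η / M) := ⟨_, rfl⟩
  have hδ0 : 0 < δ := by rw [hδ]; positivity
  have hδδ₁ : δ ≤ δ₁ := by rw [hδ]; exact (min_le_left _ _).trans (min_le_left _ _)
  have hδδ₂ : δ ≤ δ₂ := by rw [hδ]; exact (min_le_left _ _).trans (min_le_right _ _)
  have hMδ : M * δ ≤ η := by
    have : δ ≤ η / M := by rw [hδ]; exact min_le_right _ _
    calc M * δ ≤ M * (η / M) := by gcongr
      _ = η := by field_simp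
  obtain ⟨R₃, hR₃⟩ := hslice δ hδ0
  obtain ⟨R₄, hR₄⟩ := big (2 * (N.card + 1)) C (min (δL / 2) (g / 2)) (by positivity)
  obtain ⟨R₅, hR₅⟩ := big 2 0 (δL / 2) (by positivity)
  obtain ⟨R, hR⟩ : ∃ R : ℝ, R = max (max (max RL R₁) (max R₂ R₃)) (max R₄ R₅) := ⟨_, rfl⟩
  have gL : RL ≤ R := by
    rw [hR]; exact (le_max_left _ _).trans ((le_max_left _ _).trans (le_max_left _ _))
  have g1 : R₁ ≤ R := by
    rw [hR]; exact (le_max_right _ _).trans ((le_max_left _ _).trans (le_max_left _ _))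
  have g2 : R₂ ≤ R := by
    rw [hR]; exact (le_max_left _ _).trans ((le_max_right _ _).trans (le_max_left _ _))
  have g3 : R₃ ≤ R := by
    rw [hR]; exact (le_max_right _ _).trans ((le_max_right _ _).trans (le_max_left _ _))
  have g4 : R₄ ≤ R := by rw [hR]; exact (le_max_left _ _).trans (le_max_right _ _)
  have g5 : R₅ ≤ R := by rw [hR]; exact (le_max_right _ _).trans (le_max_right _ _)
  clear hR
  obtain ⟨hR1, hbig⟩ := hR₄ R g4
  have hbig2 := (hR₅ R g5).2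
  rw [Real.rpow_zero, mul_one] at hbig2
  have hR0 : 0 < R := by linarith
  obtain ⟨X, V, q, hS⟩ := hR₃ R g3 ω hω
  have hRC : 0 < R ^ C := Real.rpow_pos_of_pos hR0 C
  -- the function
  obtain ⟨tm, htm⟩ : ∃ tm : ℕ × ℕ → ℂ → ℂ, ∀ e s, tm e s =
    q (c e) (R * s) * Complex.exp ((e.1 : ℂ) * (R * s) + e.2 * V (R * s)) := ⟨_, fun _ _ => rfl⟩
  have hup : ∀ e ∈ N, ∀ s ∈ ball ω (1 / 8), ‖tm e s‖ ≤
      R ^ C * Real.exp (R * ((sl γ e * s).re + η)) := by
    intro e he s hs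
    have hs' := mem_big hR0 hs
    rw [htm, norm_mul]
    refine mul_le_mul (hS.bq _ hs' (c e) (hcQp e he)).1 ?_ (norm_nonneg _) hRC.le
    refine (norm_term hS hR0 hs' e).2.trans (Real.exp_le_exp.2 ?_)
    have h5 : (e.2 : ℝ) * δ ≤ η := (mul_le_mul_of_nonneg_right (hMe e he) hδ0.le).trans hMδ
    gcongr
  have hcardexp : ((N.card : ℝ) + 1) * R ^ C * 2 ≤ Real.exp (R * (δL / 2)) ∧
      ((N.card : ℝ) + 1) * R ^ C * 2 ≤ Real.exp (R * (g / 2)) := by
    constructor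
    · refine le_trans (le_of_eq (by ring)) (hbig.trans (Real.exp_le_exp.2 ?_))
      rw [mul_comm]
      gcongr
      exact min_le_left _ _
    · refine le_trans (le_of_eq (by ring)) (hbig.trans (Real.exp_le_exp.2 ?_))
      rw [mul_comm]
      gcongr
      exact min_le_right _ _
  have hlowF : ∀ (p s' : ℂ) (e' : ℕ × ℕ), e' ∈ N → sl γ e' = s' → ‖p - ω‖ < 1 / 16 →
      (∀ x ∈ ball p ρ, ∀ σ ∈ T, σ ≠ s' → (σ * x).re + g ≤ (s' * x).re) →
      (∀ x ∈ ball p ρ, h x = (s' * x).re) →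
      (∃ s ∈ ball p (ρ / 2), Real.exp (R * ((sl γ e' * s).re - η)) ≤
          ‖∑ e ∈ N.filter (fun e => sl γ e = sl γ e'), tm e s‖) →
      ∃ s ∈ closedBall p (ρ / 2), Real.exp (R * (h s - δL)) ≤ ‖∑ e ∈ N, tm e s‖ := by
    rintro p s' e' he' hse' hp hG heq ⟨s, hs, hlow⟩
    have hsρ : s ∈ ball p ρ := ball_subset_ball (by linarith) hs
    have hsω : s ∈ ball ω (1 / 8) := hball p hp hsρ
    refine ⟨s, ball_subset_closedBall hs, ?_⟩
    rw [heq s hsρ]
    rw [hse'] at hlow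
    obtain ⟨x, hx⟩ : ∃ x : ℝ, x = (s' * s).re := ⟨_, rfl⟩
    rw [← hx] at hlow ⊢
    have hsplit := Finset.sum_filter_add_sum_filter_not N (fun e => sl γ e = s') (fun e => tm e s)
    have hrest : ‖∑ e ∈ N.filter (fun e => ¬ sl γ e = s'), tm e s‖ ≤
        Real.exp (R * (x - η)) / 2 := by
      have h5 : ∀ e ∈ N.filter (fun e => ¬ sl γ e = s'), ‖tm e s‖ ≤
          R ^ C * Real.exp (R * (x - g + η)) := by
        intro e he
        rw [Finset.mem_filter] at he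
        refine (hup e he.1 s hsω).trans ?_
        have := hG s hsρ (sl γ e) (hTmem e he.1) he.2
        rw [← hx] at this
        gcongr
        linarith
      have h6 := (norm_sum_le _ _).trans (Finset.sum_le_sum h5)
      rw [Finset.sum_const, nsmul_eq_mul] at h6
      have h7 : ((N.filter (fun e => ¬ sl γ e = s')).card : ℝ) ≤ N.card := by
        exact_mod_cast Finset.card_filter_le _ _
      have h8 : Real.exp (R * (x - g + η)) ≤ Real.exp (R * (x - η)) * Real.exp (-(R * (g / 2))) := by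
        rw [← Real.exp_add]
        apply Real.exp_le_exp.2
        nlinarith
      have h9 : Real.exp (-(R * (g / 2))) * (((N.card : ℝ) + 1) * R ^ C * 2) ≤ 1 := by
        rw [Real.exp_neg, inv_mul_le_iff₀ (Real.exp_pos _), mul_one]
        exact hcardexp.2
      have hex := Real.exp_pos (R * (x - η))
      calc _ ≤ ((N.filter (fun e => ¬ sl γ e = s')).card : ℝ) *
            (R ^ C * Real.exp (R * (x - g + η))) := h6
        _ ≤ ((N.card : ℝ) + 1) * (R ^ C * (Real.exp (R * (x - η)) * Real.exp (-(R * (g / 2))))) := by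
          gcongr
          linarith
        _ = Real.exp (R * (x - η)) / 2 *
            (Real.exp (-(R * (g / 2))) * (((N.card : ℝ) + 1) * R ^ C * 2)) := by ring
        _ ≤ Real.exp (R * (x - η)) / 2 * 1 := by gcongr
        _ = _ := mul_one _
    have h5 : ‖∑ e ∈ N.filter (fun e => sl γ e = s'), tm e s‖ ≤ ‖∑ e ∈ N, tm e s‖ +
        ‖∑ e ∈ N.filter (fun e => ¬ sl γ e = s'), tm e s‖ := by
      have h6 : ∑ e ∈ N.filter (fun e => sl γ e = s'), tm e s = ∑ e ∈ N, tm e s -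
        ∑ e ∈ N.filter (fun e => ¬ sl γ e = s'), tm e s := by rw [← hsplit]; ring
      rw [h6]; exact norm_sub_le _ _
    have h6 : Real.exp (R * (x - δL)) ≤ Real.exp (R * (x - η)) / 2 := by
      have h7 : Real.exp (R * (x - δL)) * 2 ≤ Real.exp (R * (x - δL)) * Real.exp (δL / 2 * R) := by
        gcongr
      rw [← Real.exp_add] at h7
      have h8 : Real.exp (R * (x - δL) + δL / 2 * R) ≤ Real.exp (R * (x - η)) := by
        apply Real.exp_le_exp.2
        nlinarith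
      linarith
    linarith
  obtain ⟨s, hs, hzero⟩ := hlim R (fun s => ∑ e ∈ N, tm e s) gL (by
      refine DifferentiableOn.fun_sum fun e he => ?_
      have hmul : DifferentiableOn ℂ (fun s : ℂ => (R : ℂ) * s) (ball ω (1 / 8)) := by fun_prop
      have hmaps : Set.MapsTo (fun s : ℂ => (R : ℂ) * s) (ball ω (1 / 8)) (ball (R * ω : ℂ) (R / 8)) :=
        fun s hs => mem_big hR0 hs
      have e1 : DifferentiableOn ℂ (fun s => q (c e) (R * s)) (ball ω (1 / 8)) :=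
        (hS.dq _ (hcQp e he)).comp hmul hmaps
      have e2 : DifferentiableOn ℂ (fun s => V (R * s)) (ball ω (1 / 8)) := hS.dV.comp hmul hmaps
      have e3 : tm e = fun s => q (c e) (R * s) * Complex.exp ((e.1 : ℂ) * (R * s) + e.2 * V (R * s)) :=
        funext fun s => htm e s
      rw [e3]
      exact e1.mul ((hmul.const_mul _).add (e2.const_mul _)).cexp)
    (by
      intro s hs
      calc ‖∑ e ∈ N, tm e s‖ ≤ ∑ e ∈ N, ‖tm e s‖ := norm_sum_le _ _
        _ ≤ ∑ e ∈ N, R ^ C * Real.exp (R * (h s + η)) := by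
          refine Finset.sum_le_sum fun e he => (hup e he s hs).trans ?_
          have := hle s (sl γ e) (hTmem e he)
          gcongr
        _ = N.card * (R ^ C * Real.exp (R * (h s + η))) := by rw [Finset.sum_const, nsmul_eq_mul]
        _ ≤ (((N.card : ℝ) + 1) * R ^ C * 2) * Real.exp (R * (h s + η)) := by
          have := Real.exp_pos (R * (h s + η))
          have h8 : (0 : ℝ) ≤ N.card := Nat.cast_nonneg _
          have h9 : (N.card : ℝ) * R ^ C ≤ ((N.card : ℝ) + 1) * R ^ C * 2 := by nlinarith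
          rw [← mul_assoc]
          gcongr
        _ ≤ Real.exp (R * (δL / 2)) * Real.exp (R * (h s + η)) := by
          gcongr
          exact hcardexp.1
        _ ≤ Real.exp (R * (h s + δL)) := by
          rw [← Real.exp_add]
          apply Real.exp_le_exp.2
          nlinarith)
    (hlowF p₁ s₁ e₁ he₁ hse₁ hp₁ hG₁ heq₁ (by
      have := hlow₁ R g1 ω X V q (mono hS hR0 hδδ₁) p₁
        ((ball_subset_ball (by linarith)).trans (hball p₁ hp₁))
      simpa only [htm] using this))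
    (hlowF p₂ s₂ e₂ he₂ hse₂ hp₂ hG₂ heq₂ (by
      have := hlow₂ R g2 ω X V q (mono hS hR0 hδδ₂) p₂
        ((ball_subset_ball (by linarith)).trans (hball p₂ hp₂))
      simpa only [htm] using this))
  refine ⟨X (R * s), R * s, V (R * s), fun k => q k (R * s), ?_, ?_⟩
  · have h5 := hS.pt _ (mem_big hR0 hs)
    intro G hG
    have h6 := h5 (rename (Sum.map id (fun k : Q => (⟨k, hQQp k.2⟩ : Qp))) G) (by
      rw [aeval_rename]
      refine (congrArg (fun p => aeval p G) ?_).trans hG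
      funext i; rcases i with i | i <;> rfl)
    rw [eval_rename] at h6
    refine (congrArg (fun p => eval p G) ?_).trans h6
    funext i; rcases i with i | i <;> rfl
  · refine Eq.trans ?_ hzero
    refine Finset.sum_congr rfl fun e _ => ?_
    rw [htm, Complex.exp_add, Complex.exp_nat_mul, Complex.exp_nat_mul]
    ring

end Pool.Agent.H388.EX
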